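import Pool.Agent.N664.JS.SubFG0
import Pool.Agent.N115.JS.Stm

/-!
# JS/5 (helper115): subfields of finitely generated fields are finitely generated
-/

namespace Pool.Agent.N664.JS

theorem subFG : Pool.Agent.N115.JS.SubFG := by
  intro k L _ _ _ _ _ L0
  exact subFG0 k L L0

end Pool.Agent.N664.JS
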