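import Mathlib

/-!
# JS/5 (helper115): subfields of finitely generated fields are finitely generated

`fg_alg`, `aeval_mem`, `mem_of_indep`, `fg_sub` are copied from `Pool.Agent.N136.IS.FG` (helper136),
in order to have a file which imports only Mathlib.
-/

set_option autoImplicit false

open Polynomial IntermediateField

universe u

namespace Pool.Agent.N664.JS

section

variable {k L : Type u} [Field k] [Field L] [Algebra k L]

/-- The algebraic case (after Pool.Agent.H920R2.Cw5, essFiniteType_sub). -/
theorem fg_alg [Algebra.EssFiniteType k L] (K₀ : IntermediateField k L)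
    [Algebra.IsAlgebraic K₀ L] : Algebra.EssFiniteType k K₀ := by
  classical
  obtain ⟨s, hs⟩ := fg_top k L
  let T : Finset L := s.biUnion fun z => ((minpoly K₀ z).coeffs).image (algebraMap K₀ L)
  let E : IntermediateField k L := adjoin k (T : Set L)
  have hE : E ≤ K₀ := by
    rw [adjoin_le_iff]
    intro x hx
    obtain ⟨z, -, hz⟩ := Finset.mem_biUnion.1 (Finset.mem_coe.1 hx)
    obtain ⟨c, -, rfl⟩ := Finset.mem_image.1 hz
    exact c.2
  have hint : ∀ z ∈ s, IsIntegral E z := by
    intro z hz
    have hmon : (minpoly K₀ z).Monic := minpoly.monic (Algebra.IsIntegral.isIntegral z)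
    have hl : (minpoly K₀ z).map (algebraMap K₀ L) ∈ lifts (algebraMap E L) := by
      rw [lifts_iff_coeff_lifts]
      intro n
      rw [coeff_map]
      by_cases h0 : (minpoly K₀ z).coeff n = 0
      · exact ⟨0, by rw [h0, map_zero, map_zero]⟩
      · refine ⟨⟨algebraMap K₀ L ((minpoly K₀ z).coeff n), ?_⟩, rfl⟩
        apply subset_adjoin
        rw [Finset.mem_coe, Finset.mem_biUnion]
        exact ⟨z, hz, Finset.mem_image_of_mem _ (coeff_mem_coeffs h0)⟩
    obtain ⟨Q, hQ, -, hQm⟩ := lifts_and_natDegree_eq_and_monic hl (hmon.map _)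
    refine ⟨Q, hQm, ?_⟩
    rw [← eval_map, hQ, eval_map]
    exact minpoly.aeval K₀ z
  have htop : adjoin E (s : Set L) = ⊤ := by
    rw [eq_top_iff]
    intro x _
    have h1 : adjoin k (s : Set L) ≤ (adjoin E (s : Set L)).restrictScalars k := by
      rw [adjoin_le_iff]
      exact subset_adjoin E _
    rw [hs] at h1
    exact h1 (mem_top (x := x))
  have halg : Algebra.IsAlgebraic E L := by
    have h1 : Algebra.IsAlgebraic E (adjoin E (s : Set L)) := isAlgebraic_adjoin hint
    rw [htop] at h1
    exact (topEquiv (F := E) (E := L)).isAlgebraic_iff.1 h1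
  have hess : Algebra.EssFiniteType E L := Algebra.EssFiniteType.of_comp k E L
  have hfin : Module.Finite E L := Algebra.finite_of_essFiniteType_of_isAlgebraic
  have hfgE : Algebra.EssFiniteType k E := essFiniteType_iff.2 ⟨T, rfl⟩
  have h1 : FiniteDimensional E (extendScalars hE) := inferInstance
  have h2 : Algebra.EssFiniteType E (extendScalars hE) := inferInstance
  have h3 : Algebra.EssFiniteType k (extendScalars hE) :=
    Algebra.EssFiniteType.comp k E (extendScalars hE)
  exact h3

/-- values of polynomials over `E` whose coefficients are in `E₁` -/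
theorem aeval_mem {ι : Type u} (E E₁ : IntermediateField k L) (b : ι → L) (P : MvPolynomial ι E)
    (h : ∀ m, ((P.coeff m : E) : L) ∈ E₁) :
    MvPolynomial.aeval b P ∈ adjoin E₁ (Set.range b) := by
  rw [MvPolynomial.aeval_def, MvPolynomial.eval₂_eq]
  apply sum_mem
  intro m _
  apply mul_mem
  · exact IntermediateField.algebraMap_mem (adjoin E₁ (Set.range b)) (⟨_, h m⟩ : E₁)
  · apply prod_mem
    intro i _
    exact pow_mem (subset_adjoin E₁ (Set.range b) (Set.mem_range_self i)) _

/-- An element of `E` in `E₁(b)` is in `E₁`, if `b` is algebraically independent over `E`. -/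
theorem mem_of_indep {ι : Type u} (E E₁ : IntermediateField k L) (h1 : E₁ ≤ E) (b : ι → L)
    (hb : AlgebraicIndependent E b) (x : L) (hx : x ∈ E)
    (hx1 : x ∈ adjoin E₁ (Set.range b)) : x ∈ E₁ := by
  rw [mem_adjoin_range_iff] at hx1
  obtain ⟨r, s, hrs⟩ := hx1
  by_cases hs : MvPolynomial.aeval b s = 0
  · rw [hs, div_zero] at hrs
    rw [hrs]
    exact zero_mem _
  · have hmul : x * MvPolynomial.aeval b s = MvPolynomial.aeval b r := by
      rw [hrs, div_mul_cancel₀ _ hs]
    set φ : E₁ →+* E := (inclusion h1).toRingHom with hφ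
    have hmap : ∀ p : MvPolynomial ι E₁, MvPolynomial.aeval b (MvPolynomial.map φ p) =
        MvPolynomial.aeval b p := by
      intro p
      rw [MvPolynomial.aeval_def, MvPolynomial.eval₂_map, MvPolynomial.aeval_def]
      rfl
    have hz : MvPolynomial.aeval b (MvPolynomial.C (⟨x, hx⟩ : E) * MvPolynomial.map φ s -
        MvPolynomial.map φ r) = 0 := by
      rw [map_sub, map_mul, hmap, hmap, MvPolynomial.aeval_C]
      change x * MvPolynomial.aeval b s - MvPolynomial.aeval b r = 0
      rw [hmul, sub_self]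
    have hz2 := hb.eq_zero_of_aeval_eq_zero _ hz
    have hs0 : s ≠ 0 := by
      rintro rfl
      exact hs (map_zero _)
    obtain ⟨m, hm⟩ := MvPolynomial.exists_coeff_ne_zero hs0
    have h3 := congrArg (MvPolynomial.coeff m) hz2
    rw [MvPolynomial.coeff_sub, MvPolynomial.coeff_C_mul, MvPolynomial.coeff_map,
      MvPolynomial.coeff_map, MvPolynomial.coeff_zero, sub_eq_zero] at h3
    have h4 : x * ((s.coeff m : E₁) : L) = ((r.coeff m : E₁) : L) := congrArg Subtype.val h3
    have h5 : ((s.coeff m : E₁) : L) ≠ 0 := fun h => hm (Subtype.ext h)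
    have h6 : x = ((r.coeff m : E₁) : L) / ((s.coeff m : E₁) : L) := by
      rw [eq_div_iff h5, h4]
    rw [h6]
    exact div_mem (r.coeff m).2 (s.coeff m).2

/-- **Subextensions of finitely generated field extensions are finitely generated.** -/
theorem fg_sub [Algebra.EssFiniteType k L] (E : IntermediateField k L) : E.FG := by
  classical
  obtain ⟨B, hB⟩ := exists_isTranscendenceBasis E L
  have halg : Algebra.IsAlgebraic (adjoin E (Set.range ((↑) : B → L))) L := hB.isAlgebraic_field
  have hess : Algebra.EssFiniteType k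
      ((adjoin E (Set.range ((↑) : B → L))).restrictScalars k) := by
    have : Algebra.IsAlgebraic ((adjoin E (Set.range ((↑) : B → L))).restrictScalars k) L := halg
    exact fg_alg _
  obtain ⟨S, hS⟩ := essFiniteType_iff.1 hess
  have hS' : ∀ s ∈ S, ∃ P Q : MvPolynomial B E,
      s = MvPolynomial.aeval ((↑) : B → L) P / MvPolynomial.aeval ((↑) : B → L) Q := by
    intro s hs
    rw [← mem_adjoin_range_iff]
    have h1 : s ∈ adjoin k (S : Set L) := subset_adjoin _ _ hs
    rw [hS] at h1
    exact h1
  choose! P Q hPQ using hS'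
  set C : Finset L := S.biUnion fun s => ((P s).coeffs ∪ (Q s).coeffs).image (algebraMap E L)
    with hC
  refine ⟨C, ?_⟩
  set E₁ : IntermediateField k L := adjoin k (C : Set L) with hE₁
  have hle : E₁ ≤ E := by
    rw [hE₁, adjoin_le_iff]
    intro x hx
    obtain ⟨z, -, hz⟩ := Finset.mem_biUnion.1 (Finset.mem_coe.1 hx)
    obtain ⟨c, -, rfl⟩ := Finset.mem_image.1 hz
    exact c.2
  apply le_antisymm hle
  intro x hx
  have hcoef : ∀ s ∈ S, ∀ R : MvPolynomial B E, (R = P s ∨ R = Q s) →
      ∀ m, ((R.coeff m : E) : L) ∈ E₁ := by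
    intro s hs R hR m
    by_cases h0 : R.coeff m = 0
    · rw [h0]
      exact zero_mem _
    · apply subset_adjoin
      rw [Finset.mem_coe, hC, Finset.mem_biUnion]
      refine ⟨s, hs, Finset.mem_image.2 ⟨R.coeff m, ?_, rfl⟩⟩
      rw [Finset.mem_union]
      rcases hR with rfl | rfl
      · left
        exact MvPolynomial.coeff_mem_coeffs m h0
      · right
        exact MvPolynomial.coeff_mem_coeffs m h0
  have hSle : adjoin k (S : Set L) ≤
      (adjoin E₁ (Set.range ((↑) : B → L))).restrictScalars k := by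
    rw [adjoin_le_iff]
    intro s hs
    have hs' : s ∈ S := hs
    change s ∈ adjoin E₁ (Set.range ((↑) : B → L))
    rw [hPQ s hs']
    exact div_mem (aeval_mem E E₁ _ _ (hcoef s hs' _ (Or.inl rfl)))
      (aeval_mem E E₁ _ _ (hcoef s hs' _ (Or.inr rfl)))
  have hx2 : x ∈ adjoin k (S : Set L) := by
    rw [hS]
    exact IntermediateField.algebraMap_mem (adjoin E (Set.range ((↑) : B → L))) (⟨x, hx⟩ : E)
  exact mem_of_indep E E₁ hle _ hB.1 x hx (hSle hx2)

end

/-- The statement `Pool.Agent.N115.JS.SubFG`, unfolded. -/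
theorem subFG0 (k L : Type) [Field k] [Field L] [Algebra k L]
    [Algebra.EssFiniteType k L] (L0 : IntermediateField k L) :
    ∃ S : Set L0, S.Finite ∧ IntermediateField.adjoin k S = ⊤ := by
  classical
  obtain ⟨T, hT⟩ := fg_sub L0
  have hTL : ∀ x ∈ T, x ∈ L0 := fun x hx => by
    rw [← hT]
    exact subset_adjoin _ _ (Finset.mem_coe.2 hx)
  refine ⟨((↑) : L0 → L) ⁻¹' (T : Set L), ?_, ?_⟩
  · exact T.finite_toSet.preimage Subtype.val_injective.injOn
  · apply IntermediateField.lift_injective L0
    rw [IntermediateField.lift_top, lift_adjoin]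
    have : ((↑) : L0 → L) '' (((↑) : L0 → L) ⁻¹' (T : Set L)) = (T : Set L) := by
      rw [Set.image_preimage_eq_iff]
      intro x hx
      exact ⟨⟨x, hTL x (Finset.mem_coe.1 hx)⟩, rfl⟩
    rw [this, hT]

end Pool.Agent.N664.JS
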